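import Pool.Agent.Lib.P51n.SmallR
import Pool.Agent.Lib.P51n.FromOpt
import Pool.Agent.Lib.P51n.Main

/-!
Problem MP_51a855_an, Q1, full answer: for `d ≥ 3`, `1 ≤ p ≤ ∞` and `r > 1/p` the Korobov formulas
are optimal in the sense of order for the class `H^r_p` if and only if `r < 1`.

* `r < 1`: `P51n.SmallR`.
* `r ≥ 1`: if the formulas were optimal, then for all large `T` there would be `≍ 2^T` dual lattices
  `Γ ⊆ ℤ^d` of index `≍ 2^T` with `∑ 2^(T-|s|) ≪ T^(d-1)`, the sum being over the dyadic blocks `s`
  met by `Γ` (`P51n.FromOpt`).  There are no such families (`P51n.Main`): the limiting entropy of the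
  closeness classes of the lattices produces two noncommuting unipotent directions along which the
  family is nearly invariant, and the excursions into the cusp make the sum of order
  `≫ J T^(d-1)` for every `J`.
-/

set_option autoImplicit false

open scoped ENNReal

noncomputable section

namespace Pool.Agent.Results.MP_51a855_an.FullAnswer

open Pool.Agent.Lib.P51a855

/-- **Result.**  Let `d ≥ 3`, `1 ≤ p ≤ ∞`, `r > 1/p`, and let the class `H^r_p` be defined with
differences of order `l > r`.  The Korobov formulas are optimal in the sense of order for `H^r_p` if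
and only if `r < 1`. -/
theorem result (d : ℕ) (hd : 3 ≤ d) (l : ℕ) (p : ℝ≥0∞) (hp : 1 ≤ p) (r : ℝ)
    (hpr : 1 / p < ENNReal.ofReal r) (hl : r < l) : KorobovOptimal (HClass d l r p) ↔ r < 1 := by
  have hr0 : 0 < r := ENNReal.ofReal_pos.1 (lt_of_le_of_lt zero_le hpr)
  have hl1 : 1 ≤ l := by
    have : (0 : ℝ) < l := hr0.trans hl
    exact_mod_cast this
  constructor
  · intro hopt
    by_contra hr
    push Not at hr
    obtain ⟨C, T₀, G, hC, hG⟩ := Pool.Agent.Lib.P51n.family_of_optimal d l (by omega) r hr hl p hp
      hpr hopt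
    exact Pool.Agent.Lib.P51n.no_family d hd C hC T₀ G hG
  · intro hr
    exact (Pool.Agent.Lib.P51n.SmallR.small_optimal d hd l hl1 p hp r hpr hr).1

end Pool.Agent.Results.MP_51a855_an.FullAnswer
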